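import Pool.Agent.H503R3.FI.Final
import Pool.Agent.H503R3.FI.TaskE
import Pool.Agent.H594.FI.TaskA
import Pool.Agent.H503R3.FI.TaskB_helper133
import Pool.Agent.H503R3.FI.TaskC1
import Pool.Agent.H503R3.FI.TaskC2
import Pool.Agent.H884R3.FI.TaskF1
import Pool.Agent.H503R3.FI.TaskF2
import Pool.Agent.H413R3.FI3
import Pool.Agent.H503R3.FI.TaskF4
import Pool.Agent.H503R3.FI.TaskG
import Pool.Agent.H503R3.FI.TaskH

/-!
# An F-injective equidimensional local ring with a parameter ideal that is not Frobenius closed

The ring is the amalgamated duplication `R = T ×_{R0} T`, where `T` is the local ring of affine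
4-space over `k` at the origin and `R0 = {f ∈ K[y]_(y) : f(0) ∈ k}` for an inseparable extension
`K / k` of degree 4 in characteristic 2 without purely inseparable elements.
-/

set_option autoImplicit false

namespace Pool.Agent.Results.MP_05c1ee_al.NotFrobeniusClosed

open H503R3.FI

/-- There is a Noetherian local ring `R` of characteristic 2, essentially of finite type over a
field (hence excellent), equidimensional and F-injective, with a parameter ideal that is not
Frobenius closed. -/
theorem result :
    ∃ (k : Type) (_ : Field k) (R : Type) (_ : CommRing R) (_ : Algebra k R) (_ : IsLocalRing R),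
      CharP R 2 ∧ IsNoetherianRing R ∧ Algebra.EssFiniteType k R ∧
      (∀ P ∈ minimalPrimes R, ringKrullDim (R ⧸ P) = ringKrullDim R) ∧
      FInjective 2 R ∧ ∃ q : Ideal R, IsParameterIdeal R q ∧ ¬ FrobeniusClosed 2 q :=
  final TaskA594.taskA H133FI.taskB TaskC1.taskC1 TaskC2.taskC2
    (taskF TaskF1H884.taskF1 TaskF2.taskF2 TaskF3X.taskF3 TaskF4.taskF4) TaskG.taskG
    (taskE TaskC2.taskC2 TaskH.taskH)

end Pool.Agent.Results.MP_05c1ee_al.NotFrobeniusClosed
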